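import Mathlib

/-! The rotation inequality for Gaussian measures. -/

namespace Pool.Agent.MP_3ee8cb_gt.DF44

open MeasureTheory ProbabilityTheory Real Set

/-- Jensen's inequality without integrability of the convex function. -/
theorem jen {X W : Type} [MeasurableSpace X] [NormedAddCommGroup W] [NormedSpace ℝ W]
    [CompleteSpace W] (μ : Measure X) [IsProbabilityMeasure μ] {Φ : W → ℝ}
    (hv : ConvexOn ℝ univ Φ) (hc : Continuous Φ) (h0 : ∀ w, 0 ≤ Φ w) {f : X → W}
    (hf : Integrable f μ) :
    ENNReal.ofReal (Φ (∫ x, f x ∂μ)) ≤ ∫⁻ x, ENNReal.ofReal (Φ (f x)) ∂μ := by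
  by_cases hi : Integrable (fun x => Φ (f x)) μ
  · rw [← ofReal_integral_eq_lintegral_ofReal hi (.of_forall fun x => h0 _)]
    exact ENNReal.ofReal_le_ofReal (hv.map_integral_le hc.continuousOn isClosed_univ
      (.of_forall fun _ => mem_univ _) hf hi)
  · refine le_top.trans_eq (by_contra fun h => hi ?_)
    exact (lintegral_ofReal_ne_top_iff_integrable (hc.comp_aestronglyMeasurable hf.1)
      (.of_forall fun x => h0 _)).1 (Ne.symm h)

theorem pis {E W : Type} [NormedAddCommGroup E] [InnerProductSpace ℝ E] [FiniteDimensional ℝ E]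
    [MeasurableSpace E] [BorelSpace E] [NormedAddCommGroup W] [NormedSpace ℝ W]
    [CompleteSpace W] {Φ : W → ℝ} (hv : ConvexOn ℝ univ Φ) (hc : Continuous Φ)
    (h0 : ∀ w, 0 ≤ Φ w) {G : E → W} (hG : ContDiff ℝ 1 G) (hi : Integrable G (stdGaussian E)) :
    ∫⁻ x, ENNReal.ofReal (Φ (G x - ∫ y, G y ∂stdGaussian E)) ∂stdGaussian E ≤
      ∫⁻ x, ∫⁻ y, ENNReal.ofReal (Φ ((π / 2) • fderiv ℝ G x y)) ∂stdGaussian E
        ∂stdGaussian E := by
  have cD := hG.continuous_fderiv one_ne_zero
  have cG := hG.continuous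
  have p0 : 0 < π / 2 := by positivity
  obtain ⟨ν, hν⟩ : ∃ ν : Measure ℝ,
    ν = ENNReal.ofReal (π / 2)⁻¹ • volume.restrict (Ioc 0 (π / 2)) := ⟨_, rfl⟩
  have : IsProbabilityMeasure ν := ⟨by
    rw [hν, Measure.smul_apply, Measure.restrict_apply_univ, Real.volume_Ioc, sub_zero,
      smul_eq_mul, ← ENNReal.ofReal_mul (by positivity), inv_mul_cancel₀ p0.ne',
      ENNReal.ofReal_one]⟩
  obtain ⟨F, hF⟩ : ∃ F : E × E → W, F = fun p => (π / 2) • fderiv ℝ G p.1 p.2 := ⟨_, rfl⟩
  have cF : Continuous F := by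
    rw [hF]
    fun_prop
  have cR : Continuous fun q : (E × E) × ℝ => ContinuousLinearMap.rotation q.2 q.1 := by
    simp only [ContinuousLinearMap.rotation_apply]
    fun_prop
  have mF : Measurable fun p => ENNReal.ofReal (Φ (F p)) :=
    (hc.comp cF).measurable.ennreal_ofReal
  have k : ∀ p : E × E, ENNReal.ofReal (Φ (G p.2 - G p.1)) ≤
      ∫⁻ t, ENNReal.ofReal (Φ (F (ContinuousLinearMap.rotation t p))) ∂ν := fun p => by
    have c1 : Continuous fun t => F (ContinuousLinearMap.rotation t p) :=
      cF.comp (g := F) (f := fun t => ContinuousLinearMap.rotation t p) (by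
        simp only [ContinuousLinearMap.rotation_apply]
        fun_prop)
    have d : ∀ t, HasDerivAt (fun t => (π / 2) • G (cos t • p.1 + sin t • p.2))
        (F (ContinuousLinearMap.rotation t p)) t := fun t => by
      rw [hF]
      exact ((hG.differentiable one_ne_zero _).hasFDerivAt.comp_hasDerivAt t
        (((hasDerivAt_cos t).smul_const p.1).add ((hasDerivAt_sin t).smul_const p.2))).const_smul
        (π / 2)
    have e := intervalIntegral.integral_eq_sub_of_hasDerivAt (a := 0) (b := π / 2)
      (fun t _ => d t) (c1.intervalIntegrable _ _)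
    refine le_of_eq_of_le ?_ (jen ν hv hc h0 ?_)
    · rw [hν, integral_smul_measure, ← intervalIntegral.integral_of_le p0.le, e,
        ENNReal.toReal_ofReal (by positivity), ← smul_sub, smul_smul, inv_mul_cancel₀ p0.ne']
      simp
    · rw [hν]
      exact (c1.integrableOn_Ioc).smul_measure ENNReal.ofReal_ne_top
  calc _ ≤ ∫⁻ x, ∫⁻ y, ENNReal.ofReal (Φ (G x - G y)) ∂stdGaussian E ∂stdGaussian E := by
        refine lintegral_mono fun x => le_of_eq_of_le ?_
          (jen _ hv hc h0 ((integrable_const (G x)).sub hi))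
        rw [integral_sub (integrable_const _) hi]
        simp
    _ = ∫⁻ p, ENNReal.ofReal (Φ (G p.2 - G p.1)) ∂(stdGaussian E).prod (stdGaussian E) := by
        rw [lintegral_prod_symm']
        exact (hc.comp (by fun_prop)).measurable.ennreal_ofReal
    _ ≤ ∫⁻ p, ∫⁻ t, ENNReal.ofReal (Φ (F (ContinuousLinearMap.rotation t p))) ∂ν
        ∂(stdGaussian E).prod (stdGaussian E) := lintegral_mono k
    _ = ∫⁻ _t, ∫⁻ p, ENNReal.ofReal (Φ (F p)) ∂(stdGaussian E).prod (stdGaussian E) ∂ν := by
        refine (lintegral_lintegral_swap (f := fun p t => ENNReal.ofReal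
          (Φ (F (ContinuousLinearMap.rotation t p))))
          (by exact (mF.comp cR.measurable).aemeasurable)).trans (lintegral_congr fun t => ?_)
        rw [← lintegral_map mF (ContinuousLinearMap.rotation t).continuous.measurable,
          IsGaussian.map_rotation_eq_self integral_id_stdGaussian]
    _ = _ := by
        rw [lintegral_const, measure_univ, mul_one, lintegral_prod _ mF.aemeasurable, hF]

end Pool.Agent.MP_3ee8cb_gt.DF44
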